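import Pool.Agent.Work.MP_db9399_bg.Base
import Pool.Agent.Work.MP_db9399_dn.MLA
import Pool.Agent.Work.MP_db9399_dn.MLB

/-!
# MP_db9399, THEOREM BIG, block TUT2 (helper29): one matching, one missed vertex in every set of the
family
-/

set_option autoImplicit false

namespace Pool.Agent.Work.MP_db9399_bg.helper29

open Finset Classical
open Pool.Agent.Work.MP_db9399_all (nb)
open Pool.Agent.Work.MP_db9399_dn (NB IsMat)
open Pool.Agent.Work.MP_db9399_dn.ML (tutte_fam dcount)
open Pool.Agent.Work.MP_db9399_sc (cut Crit Conn Env Fam)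
open Pool.Agent.Work.MP_db9399_bg

universe u

/-- the numbers -/
theorem numbersT (η p1 p2 s : ℝ) (hη : 0 < η) (h1 : (1 + η) * p1 ≤ s) (hp1 : 0 ≤ p1)
    (h2 : p1 * (1 - η / 8) + 7 / 5 * p2 ≤ s) : p1 + p2 ≤ s := by
  nlinarith [mul_nonneg hp1 hη.le]

/-- if `C' \ X` is small then many neighbours in `C'` give one in `X` -/
theorem nb_in {V : Type u} [Fintype V] (F : SimpleGraph V) (X C' : Finset V) (z : V)
    (h1 : (C' \ X).card ≤ 3) (h2 : 4 ≤ (nb F z ∩ C').card) :
    ∃ y, y ∈ X ∧ y ∈ C' ∧ F.Adj z y := by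
  by_contra hno
  push Not at hno
  have h3 : nb F z ∩ C' ⊆ C' \ X := by
    intro y hy
    rw [mem_inter, mem_nb] at hy
    rw [mem_sdiff]
    exact ⟨hy.2, fun hyX => hno y hyX hy.2 hy.1⟩
  have := card_le_card h3
  omega

/-- removal of the critical members of the family -/
theorem reduce {V : Type u} [Fintype V] (F : SimpleGraph V) (d : ℕ) (U O S : Finset V)
    (Cs XX : Finset (Finset V)) (hd : 13 ≤ d) (hCs : ∀ C ∈ Cs, Crit F d U U C)
    (hCd : ∀ C ∈ Cs, ∀ C' ∈ Cs, C ≠ C' → Disjoint C C')
    (hhit : ∀ C, Crit F d U U C → ∃ C' ∈ Cs, (C' \ C).card ≤ 3)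
    (hO : ∀ C ∈ Cs, ∃ z ∈ O, Ok F U C z) (hcard : S.card + 1 ≤ XX.card)
    (hXX : ∀ X ∈ XX, X ⊆ U \ O ∧ Odd X.card ∧ Disjoint X S ∧ ∀ x ∈ X, nb F x ∩ U ⊆ X ∪ S)
    (hdisj : ∀ X ∈ XX, ∀ Y ∈ XX, X ≠ Y → Disjoint X Y) :
    ∃ (S' : Finset V) (XX' : Finset (Finset V)), S' ⊆ S ∧ XX' ⊆ XX ∧ S'.card + 1 ≤ XX'.card ∧
      (∀ X ∈ XX', ¬ Crit F d U U X) ∧ ∀ X ∈ XX', ∀ x ∈ X, nb F x ∩ U ⊆ X ∪ S' := by
  -- the vertex of a critical member
  have hex : ∀ X ∈ XX, Crit F d U U X → ∃ z ∈ S, ∃ C' ∈ Cs, (C' \ X).card ≤ 3 ∧ Ok F U C' z := by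
    intro X hX hcr
    obtain ⟨C', hC', hsm⟩ := hhit X hcr
    obtain ⟨z, hz, hok⟩ := hO C' hC'
    obtain ⟨y, hyX, hyC, hzy⟩ := nb_in F X C' z hsm hok.2.1
    have hzU : z ∈ U := (hCs C' hC').1 hok.1
    have h1 := (hXX X hX).2.2.2 y hyX (mem_inter.mpr ⟨mem_nb.mpr hzy.symm, hzU⟩)
    rw [mem_union] at h1
    rcases h1 with h1 | h1
    · exact absurd hz (mem_sdiff.mp ((hXX X hX).1 h1)).2
    · exact ⟨z, h1, C', hC', hsm, hok⟩
  have hVne : Nonempty V := by
    obtain ⟨X, hX⟩ := Finset.card_pos.mp (by omega : 0 < XX.card)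
    obtain ⟨j, hj⟩ := (hXX X hX).2.1
    obtain ⟨x, _⟩ := Finset.card_pos.mp (by omega : 0 < X.card)
    exact ⟨x⟩
  choose! zf hzS Cf hCf hsm hok using hex
  obtain ⟨XC, hXC⟩ : ∃ XC : Finset (Finset V), XC = XX.filter (fun X => Crit F d U U X) := ⟨_, rfl⟩
  obtain ⟨XN, hXN⟩ : ∃ XN : Finset (Finset V), XN = XX.filter (fun X => ¬ Crit F d U U X) :=
    ⟨_, rfl⟩
  have hmemC : ∀ X, X ∈ XC ↔ X ∈ XX ∧ Crit F d U U X := by
    intro X; rw [hXC, mem_filter]
  have hmemN : ∀ X, X ∈ XN ↔ X ∈ XX ∧ ¬ Crit F d U U X := by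
    intro X; rw [hXN, mem_filter]
  have hsum : XX.card = XC.card + XN.card := by
    rw [hXC, hXN]
    exact (Finset.card_filter_add_card_filter_not (s := XX) (fun X => Crit F d U U X)).symm
  have hinj : Set.InjOn zf (XC : Set (Finset V)) := by
    intro X hX Y hY hXY
    rw [Finset.mem_coe, hmemC] at hX hY
    by_contra hne
    have h1 := hok X hX.1 hX.2
    have h2 := hok Y hY.1 hY.2
    have h3 : Cf X = Cf Y := by
      by_contra hC
      have h4 := hCd _ (hCf X hX.1 hX.2) _ (hCf Y hY.1 hY.2) hC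
      have h5 : zf X ∈ Cf Y := by
        rw [hXY]
        exact h2.1
      exact Finset.disjoint_left.mp h4 h1.1 h5
    have h4 := hsm X hX.1 hX.2
    have h5 := hsm Y hY.1 hY.2
    rw [← h3] at h5
    have h6 : Cf X ⊆ (Cf X \ X) ∪ (Cf X \ Y) := by
      intro v hv
      rw [mem_union, mem_sdiff, mem_sdiff]
      by_cases hvX : v ∈ X
      · exact Or.inr ⟨hv, Finset.disjoint_left.mp (hdisj X hX.1 Y hY.1 hne) hvX⟩
      · exact Or.inl ⟨hv, hvX⟩
    have h7 := (card_le_card h6).trans (card_union_le _ _)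
    have h8 := (hCs _ (hCf X hX.1 hX.2)).2.1
    omega
  refine ⟨S \ XC.image zf, XN, sdiff_subset, ?_, ?_, fun X hX => ((hmemN X).mp hX).2, ?_⟩
  · intro X hX
    exact ((hmemN X).mp hX).1
  · have h1 : XC.image zf ⊆ S := by
      intro z hz
      obtain ⟨X, hX, rfl⟩ := mem_image.mp hz
      rw [hmemC] at hX
      exact hzS X hX.1 hX.2
    have h2 := card_sdiff_add_card_eq_card h1
    have h3 : (XC.image zf).card = XC.card := card_image_of_injOn hinj
    omega
  · intro X hX x hx y hy
    rw [hmemN] at hX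
    have h1 := (hXX X hX.1).2.2.2 x hx hy
    rw [mem_union] at h1 ⊢
    rcases h1 with h1 | h1
    · exact Or.inl h1
    · right
      rw [mem_sdiff]
      refine ⟨h1, ?_⟩
      intro hyz
      obtain ⟨Y, hY, hYy⟩ := mem_image.mp hyz
      rw [hmemC] at hY
      have h2 := hok Y hY.1 hY.2
      rw [hYy] at h2
      have hxU : x ∈ U := (mem_sdiff.mp ((hXX X hX.1).1 hx)).1
      rw [mem_inter, mem_nb] at hy
      have h3 := h2.2.2 x (mem_inter.mpr ⟨mem_nb.mpr hy.1.symm, hxU⟩)
      obtain ⟨w, hwY, hwC, hxw⟩ := nb_in F Y (Cf Y) x (hsm Y hY.1 hY.2) h3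
      have hwU : w ∈ U := (mem_sdiff.mp ((hXX Y hY.1).1 hwY)).1
      have h4 := (hXX X hX.1).2.2.2 x hx (mem_inter.mpr ⟨mem_nb.mpr hxw, hwU⟩)
      have hne : Y ≠ X := by
        rintro rfl
        exact hX.2 hY.2
      rw [mem_union] at h4
      rcases h4 with h4 | h4
      · exact Finset.disjoint_left.mp (hdisj Y hY.1 X hX.1 hne) hwY h4
      · exact Finset.disjoint_left.mp (hXX Y hY.1).2.2.1 hwY h4

theorem stmt_TUT2 : Stmt_TUT2.{u} := by
  intro c hc0 hc1
  refine ⟨c / 8, 17, by positivity, ?_⟩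
  intro V _ F d U O Cs hd0 hdeg hL hen hCs hCd hhit hO
  have hd17 : (17 : ℝ) ≤ d := by exact_mod_cast hd0
  have key : ∃ M : SimpleGraph V, M ≤ F ∧ IsMat M ∧ (∀ v w, M.Adj v w → v ∈ U) ∧
      ∀ v ∈ U \ O, (nb M v).Nonempty := by
    by_contra hno
    obtain ⟨S0, XX0, hSU0, hcard0, hXX0, hdisj0⟩ :=
      tutte_fam F U (U \ O) sdiff_subset hno
    obtain ⟨S, XX, hSS, hXXX, hcard, hncr, hN⟩ := reduce F d U O S0 Cs XX0 (by omega) hCs hCd hhit
      hO hcard0 hXX0 hdisj0
    have hSU : S ⊆ U := hSS.trans hSU0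
    have hdisj : ∀ X ∈ XX, ∀ Y ∈ XX, X ≠ Y → Disjoint X Y := fun X hX Y hY =>
      hdisj0 X (hXXX hX) Y (hXXX hY)
    have hXU : ∀ X ∈ XX, X ⊆ U := fun X hX => (hXX0 X (hXXX hX)).1.trans sdiff_subset
    have hXS : ∀ X ∈ XX, Disjoint X S := fun X hX =>
      Finset.disjoint_of_subset_right hSS (hXX0 X (hXXX hX)).2.2.1
    -- lower bound for the degree into `S`
    have hlow : ∀ X ∈ XX, ∀ x ∈ X, (1 - c / 8) * d ≤ ((nb F x ∩ S).card : ℝ) + X.card - 1 := by
      intro X hX x hx
      have h1 := hL x (hXU X hX hx)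
      have h2 : (nb F x ∩ U).card ≤ (nb F x ∩ S).card + (X.erase x).card := by
        refine le_trans (Finset.card_le_card ?_) (Finset.card_union_le _ _)
        intro y hy
        have h3 := hN X hX x hx hy
        rw [mem_inter] at hy
        rw [mem_union] at h3 ⊢
        rw [mem_inter, mem_erase]
        rcases h3 with h3 | h3
        · right
          refine ⟨?_, h3⟩
          rintro rfl
          exact F.loopless.irrefl _ (mem_nb.mp hy.1)
        · exact Or.inl ⟨hy.1, h3⟩
      rw [Finset.card_erase_of_mem hx] at h2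
      have h4 : 1 ≤ X.card := Finset.card_pos.mpr ⟨x, hx⟩
      have h5 : (nb F x ∩ U).card + 1 ≤ (nb F x ∩ S).card + X.card := by omega
      have h6 : ((nb F x ∩ U).card : ℝ) + 1 ≤ (nb F x ∩ S).card + X.card := by exact_mod_cast h5
      linarith
    obtain ⟨X1, hX1⟩ : ∃ X1 : Finset (Finset V), X1 = XX.filter (fun X => X.card = 1) := ⟨_, rfl⟩
    obtain ⟨X2, hX2⟩ : ∃ X2 : Finset (Finset V),
      X2 = XX.filter (fun X => ¬ X.card = 1) := ⟨_, rfl⟩
    have hsum : XX.card = X1.card + X2.card := by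
      rw [hX1, hX2]
      exact (Finset.card_filter_add_card_filter_not (s := XX) (fun X => X.card = 1)).symm
    -- singletons
    have hs1 : (1 + c) * (X1.card : ℝ) ≤ S.card := by
      obtain ⟨T0, hT0⟩ : ∃ T0 : Finset V, T0 = X1.biUnion id := ⟨_, rfl⟩
      have hmemT : ∀ t, t ∈ T0 ↔ ∃ X ∈ XX, X.card = 1 ∧ t ∈ X := by
        intro t
        rw [hT0, mem_biUnion, hX1]
        constructor
        · rintro ⟨X, hX, ht⟩
          rw [mem_filter] at hX
          exact ⟨X, hX.1, hX.2, ht⟩
        · rintro ⟨X, hX, hX', ht⟩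
          exact ⟨X, mem_filter.mpr ⟨hX, hX'⟩, ht⟩
      have h1 : T0.card = X1.card := by
        rw [hT0, Finset.card_biUnion]
        · rw [Finset.card_eq_sum_ones]
          apply Finset.sum_congr rfl
          intro X hX
          rw [hX1, mem_filter] at hX
          exact hX.2
        · intro X hX Y hY hne
          rw [Finset.mem_coe, hX1, mem_filter] at hX hY
          exact hdisj X hX.1 Y hY.1 hne
      have hTU : T0 ⊆ U := by
        intro t ht
        obtain ⟨X, hX, _, htX⟩ := (hmemT t).mp ht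
        exact hXU X hX htX
      have hTS : Disjoint T0 S := by
        rw [Finset.disjoint_left]
        intro t ht
        obtain ⟨X, hX, _, htX⟩ := (hmemT t).mp ht
        exact Finset.disjoint_left.mp (hXS X hX) htX
      have hTN : ∀ t ∈ T0, nb F t ∩ U ⊆ S := by
        intro t ht y hy
        obtain ⟨X, hX, hX', htX⟩ := (hmemT t).mp ht
        have h3 := hN X hX t htX hy
        rw [mem_union] at h3
        rcases h3 with h3 | h3
        · exfalso
          have h4 := Finset.card_le_one.mp hX'.le t htX y h3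
          rw [mem_inter, mem_nb, h4] at hy
          exact F.loopless.irrefl _ hy.1
        · exact h3
      have h2 := hen T0 S hTS hTU hSU
      have h3 : (∑ t ∈ T0, (((nb F t ∩ U) \ S).card : ℝ)) = 0 := by
        apply Finset.sum_eq_zero
        intro t ht
        rw [Finset.sdiff_eq_empty_iff_subset.mpr (hTN t ht)]
        simp
      -- double counting of the edges between `T0` and `S`
      have h4 : (∑ s ∈ S, (nb F s ∩ T0).card) = ∑ t ∈ T0, (nb F t ∩ S).card := by
        have e1 : ∀ (x : V) (A : Finset V), (nb F x ∩ A).card =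
            ∑ a ∈ A, if F.Adj x a then 1 else 0 := by
          intro x A
          rw [Finset.sum_boole, Nat.cast_id]
          congr 1
          ext a
          simp [mem_nb, and_comm]
        rw [Finset.sum_congr rfl (fun s _ => e1 s T0), Finset.sum_congr rfl (fun t _ => e1 t S),
          Finset.sum_comm]
        refine Finset.sum_congr rfl (fun t _ => Finset.sum_congr rfl (fun s _ => ?_))
        simp only [F.adj_comm]
      have h5 : (1 - c / 8) * d * T0.card ≤ ∑ t ∈ T0, ((nb F t ∩ S).card : ℝ) := by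
        rw [mul_comm, ← nsmul_eq_mul, ← Finset.sum_const]
        apply Finset.sum_le_sum
        intro t ht
        refine (hL t (hTU ht)).trans ?_
        have : nb F t ∩ U ⊆ nb F t ∩ S := fun y hy =>
          mem_inter.mpr ⟨(mem_inter.mp hy).1, hTN t ht hy⟩
        exact_mod_cast card_le_card this
      have h6 : (∑ s ∈ S, (((nb F s ∩ U) \ T0).card : ℝ)) ≤
          d * S.card - ∑ s ∈ S, ((nb F s ∩ T0).card : ℝ) := by
        have h7 : (d : ℝ) * S.card = ∑ s ∈ S, (d : ℝ) := by
          rw [Finset.sum_const, nsmul_eq_mul, mul_comm]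
        rw [h7, ← Finset.sum_sub_distrib]
        apply Finset.sum_le_sum
        intro s _
        have h8 : ((nb F s ∩ U) \ T0).card + (nb F s ∩ T0).card ≤ (nb F s).card := by
          rw [← Finset.card_union_of_disjoint]
          · apply card_le_card
            intro y hy
            rw [mem_union, mem_sdiff, mem_inter, mem_inter] at hy
            rcases hy with hy | hy
            · exact hy.1.1
            · exact hy.1
          · rw [Finset.disjoint_left]
            intro y hy hy'
            exact (mem_sdiff.mp hy).2 (mem_inter.mp hy').2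
        have h9 : (((nb F s ∩ U) \ T0).card : ℝ) + (nb F s ∩ T0).card ≤ d := by
          exact_mod_cast h8.trans (hdeg s)
        linarith
      have h7 : (∑ s ∈ S, ((nb F s ∩ T0).card : ℝ)) = ∑ t ∈ T0, ((nb F t ∩ S).card : ℝ) := by
        exact_mod_cast h4
      unfold en at h2
      rw [h3, zero_add] at h2
      rw [h7] at h6
      have h8 : d * (c * ((T0.card : ℝ) + S.card)) ≤ d * (S.card - (1 - c / 8) * T0.card) := by
        linarith
      have h9 := le_of_mul_le_mul_left h8 (by linarith)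
      rw [h1] at h9
      have hp : (0 : ℝ) ≤ X1.card := Nat.cast_nonneg _
      have hs : (0 : ℝ) ≤ S.card := Nat.cast_nonneg _
      nlinarith [mul_nonneg hc0.le hs, mul_nonneg hc0.le hp]
    -- edges into S
    have hs2 : (X1.card : ℝ) * (1 - c / 8) + 7 / 5 * X2.card ≤ S.card := by
      have h1 : (∑ X ∈ X1 ∪ X2, (∑ x ∈ X, (nb F x ∩ S).card)) ≤ d * S.card := by
        have hsub : X1 ∪ X2 ⊆ XX := by
          rw [hX1, hX2]
          exact Finset.union_subset (Finset.filter_subset _ _) (Finset.filter_subset _ _)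
        have h1 : (∑ X ∈ X1 ∪ X2, (∑ x ∈ X, (nb F x ∩ S).card)) =
            ∑ x ∈ (X1 ∪ X2).biUnion id, (nb F x ∩ S).card := by
          rw [Finset.sum_biUnion]
          · rfl
          · intro X hX Y hY hne
            exact hdisj X (hsub hX) Y (hsub hY) hne
        rw [h1]
        exact dcount F d S _ hdeg
      rw [Finset.sum_union] at h1
      · have h2 : (X1.card : ℝ) * ((1 - c / 8) * d) ≤
            ∑ X ∈ X1, (∑ x ∈ X, ((nb F x ∩ S).card : ℝ)) := by
          rw [← nsmul_eq_mul, ← Finset.sum_const]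
          apply Finset.sum_le_sum
          intro X hX
          rw [hX1, mem_filter] at hX
          obtain ⟨x, hx⟩ := Finset.card_pos.mp (by omega : 0 < X.card)
          have h3 := hlow X hX.1 x hx
          have h4 : ((nb F x ∩ S).card : ℝ) ≤ ∑ x ∈ X, ((nb F x ∩ S).card : ℝ) :=
            Finset.single_le_sum (f := fun x => ((nb F x ∩ S).card : ℝ))
              (fun _ _ => Nat.cast_nonneg _) hx
          rw [hX.2] at h3
          push_cast at h3
          linarith
        have h3 : (X2.card : ℝ) * (7 / 5 * d) ≤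
            ∑ X ∈ X2, (∑ x ∈ X, ((nb F x ∩ S).card : ℝ)) := by
          rw [← nsmul_eq_mul, ← Finset.sum_const]
          apply Finset.sum_le_sum
          intro X hX
          rw [hX2, mem_filter] at hX
          rcases lt_or_ge (X.card : ℝ) (d / 2) with hlt | hge
          · have h4 : (X.card : ℝ) * ((1 - c / 8) * d - X.card + 1) ≤
                ∑ x ∈ X, ((nb F x ∩ S).card : ℝ) := by
              rw [← nsmul_eq_mul, ← Finset.sum_const]
              apply Finset.sum_le_sum
              intro x hx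
              have := hlow X hX.1 x hx
              linarith
            refine le_trans ?_ h4
            obtain ⟨l, hl⟩ := (hXX0 X (hXXX hX.1)).2.1
            have h5 : (3 : ℝ) ≤ X.card := by
              exact_mod_cast (by omega : 3 ≤ X.card)
            have h7 : (99 / 100 : ℝ) * d ≤ (1 - c / 8) * d :=
              mul_le_mul_of_nonneg_right (by linarith) (Nat.cast_nonneg _)
            have h6 : (49 / 100 : ℝ) * d ≤ (1 - c / 8) * d - X.card + 1 := by
              linarith
            calc (7 / 5 : ℝ) * d ≤ 3 * (49 / 100 * d) := by linarith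
              _ ≤ X.card * ((1 - c / 8) * d - X.card + 1) :=
                  mul_le_mul h5 h6 (by positivity) (by positivity)
          · by_contra hlt
            rw [not_le] at hlt
            have h4 : cut F U X ≤ ∑ x ∈ X, (nb F x ∩ S).card := by
              unfold Pool.Agent.Work.MP_db9399_sc.cut
              apply Finset.sum_le_sum
              intro x hx
              apply Finset.card_le_card
              intro y hy
              rw [mem_inter, mem_sdiff] at hy
              have h6 := hN X hX.1 x hx (mem_inter.mpr ⟨hy.1, hy.2.1⟩)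
              rw [mem_union] at h6
              rcases h6 with h6 | h6
              · exact absurd h6 hy.2.2
              · exact mem_inter.mpr ⟨hy.1, h6⟩
            have h5 : ((cut F U X : ℕ) : ℝ) ≤ ∑ x ∈ X, ((nb F x ∩ S).card : ℝ) := by
              exact_mod_cast h4
            have hcr : Crit F d U U X := by
              refine ⟨hXU X hX.1, ?_, ?_⟩
              · have h6 : (d : ℝ) ≤ 2 * X.card := by linarith
                exact_mod_cast h6
              · have h6 : (5 : ℝ) * (cut F U X : ℕ) < 7 * d := by linarith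
                exact_mod_cast h6
            exact hncr X hX.1 hcr
        have h4 : ((∑ X ∈ X1, (∑ x ∈ X, (nb F x ∩ S).card) : ℕ) : ℝ) +
            ((∑ X ∈ X2, (∑ x ∈ X, (nb F x ∩ S).card) : ℕ) : ℝ) ≤ d * S.card := by
          exact_mod_cast h1
        push_cast at h4
        have h5 : ((X1.card : ℝ) * (1 - c / 8) + 7 / 5 * X2.card) * d ≤ (S.card : ℝ) * d := by
          linarith
        exact le_of_mul_le_mul_right h5 (by linarith)
      · rw [Finset.disjoint_left]
        intro X h3 h4
        rw [hX1, mem_filter] at h3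
        rw [hX2, mem_filter] at h4
        exact h4.2 h3.2
    have hp12 := numbersT c X1.card X2.card S.card hc0 hs1 (Nat.cast_nonneg _) hs2
    have h1 : X1.card + X2.card ≤ S.card := by exact_mod_cast hp12
    omega
  obtain ⟨M, hM1, hM2, hM3, hM4⟩ := key
  exact ⟨M, hM1, hM2, hM3, fun v hv hvO => hM4 v (mem_sdiff.mpr ⟨hv, hvO⟩)⟩

end Pool.Agent.Work.MP_db9399_bg.helper29
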